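import Pool.Agent.Helper15.BB.St

/-!
# Project BB, module R: the reducible words form a context-free language
-/

set_option autoImplicit false

namespace Pool.Agent.Helper16.BB

open Symbol Pool.Agent.Helper22.FL Pool.Agent.Helper22.CS Pool.Agent.Helper15.BB

variable {T : Type}

/-- the grammar -/
def redFRules (P : T → T → Prop) (F : T → Prop) : Set (ContextFreeRule T Unit) :=
  ({⟨(), []⟩, ⟨(), [nonterminal (), nonterminal ()]⟩} ∪ {r | ∃ c, F c ∧ r = ⟨(), [terminal c]⟩}) ∪
    {r | ∃ a b, P a b ∧ r = ⟨(), [terminal a, nonterminal (), terminal b]⟩}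

theorem redFRules_finite [Finite T] (P : T → T → Prop) (F : T → Prop) : (redFRules P F).Finite := by
  refine Set.Finite.union (Set.Finite.union (Set.toFinite _) ?_) ?_
  · refine (Set.finite_range (fun c : T =>
      (⟨(), [terminal c]⟩ : ContextFreeRule T Unit))).subset ?_
    rintro r ⟨c, _, rfl⟩
    exact ⟨c, rfl⟩
  · refine (Set.finite_range (fun ab : T × T =>
      (⟨(), [terminal ab.1, nonterminal (), terminal ab.2]⟩ : ContextFreeRule T Unit))).subset ?_
    rintro r ⟨a, b, _, rfl⟩
    exact ⟨(a, b), rfl⟩

theorem str : StR := by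
  intro T _ P F
  have key : ({w | RedF P F w} : Language T) = lang (redFRules P F) () := by
    ext w
    constructor
    · intro h
      change RedF P F w at h
      induction h with
      | nil => exact der_nt_iff.2 ⟨⟨(), []⟩, Or.inl (Or.inl (Or.inl rfl)), rfl, .nil⟩
      | @one c hc =>
        exact der_nt_iff.2 ⟨⟨(), [terminal c]⟩, Or.inl (Or.inr ⟨c, hc, rfl⟩), rfl,
          .term c .nil⟩
      | cat _ _ ih1 ih2 =>
        exact der_nt_iff.2 ⟨⟨(), [nonterminal (), nonterminal ()]⟩,
          Or.inl (Or.inl (Or.inr rfl)), rfl, Der.append (α := [nonterminal ()]) ih1 ih2⟩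
      | @pair a b u hab _ ih =>
        refine der_nt_iff.2 ⟨⟨(), [terminal a, nonterminal (), terminal b]⟩,
          Or.inr ⟨a, b, hab, rfl⟩, rfl, ?_⟩
        exact Der.term a (Der.append (α := [nonterminal ()]) ih (Der.term b Der.nil))
    · intro h
      refine lang_sound (fun _ => {w | RedF P F w}) ?_ () h
      rintro r (((rfl | rfl) | ⟨c, hc, rfl⟩) | ⟨a, b, hab, rfl⟩) w hw
      · rw [show w = [] from hw]
        exact RedF.nil
      · obtain ⟨u, v, rfl, hu, v', z, rfl, hv, hz⟩ := hw
        rw [show z = [] from hz, List.append_nil]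
        exact RedF.cat hu hv
      · obtain ⟨w', rfl, hw'⟩ := hw
        rw [show w' = [] from hw']
        exact RedF.one hc
      · obtain ⟨w', rfl, u, v, rfl, hu, v', rfl, hv⟩ := hw
        rw [show v' = [] from hv]
        exact RedF.pair hab hu
  rw [key]
  exact isContextFree_lang (redFRules_finite P F) ()

end Pool.Agent.Helper16.BB
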